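import Mathlib
import Pool.Agent.X90.DN.All

/-!
# MP_80812c_nt: no small relations between multiple Clausen values (Glaisher values) with a large argument

For every `W` there is `c > 0` such that for ALL sufficiently large weights `k` the `2 ^ W` multiple
Clausen values `Cl_{k - |u|, u}(π/3)` of weight `k`, where `u` runs over the compositions of the numbers
`|u| ≤ W`, satisfy no nontrivial linear relation with integer coefficients of absolute value at most
`exp (c k)`, and neither do the `2 ^ W` multiple Glaisher values `Gl_{k - |u|, u}(π/3)`.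

Proof. Up to a constant factor both are of the form `∑ χ(n) n ^ (-k) n ^ |u| ζ_{n - 1}(u)` with a periodic
sequence of integers `χ` (for the imaginary parts it vanishes at the multiples of three). The nested
harmonic sums `ζ_{n - 1}(u)` are linearly independent over the rational functions of `n`
(`Pool/Agent/X90/DM/Hs`); moreover a combination of them with real polynomial coefficients is eventually
positive, eventually negative or eventually zero (`Pool/Agent/X90/DN/Tri`), so that one that vanishes for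
infinitely many `n` vanishes identically. Hence the first term in which a given relation does not vanish
formally has a bounded index, and it dominates the rest of the series when the coefficients are small.
-/

set_option autoImplicit false

namespace Pool.Agent.Results.MP_80812c_nt.SmallRelations

open Filter Topology Real

/-- the sum of `∏ 1 / m_i ^ k_i` over `m > m_1 > ... > m_r ≥ 1` -/
noncomputable def inner : List ℕ → ℕ → ℝ
  | [], _ => 1
  | k :: l, m => ∑ j ∈ Finset.Ico 1 m, 1 / (j : ℝ) ^ k * inner l j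

/-- the multiple polylogarithm `Li_{k_1, ..., k_n}(exp (i θ))`, the sum of
`exp (i m_1 θ) / (m_1 ^ k_1 ⋯ m_n ^ k_n)` over `m_1 > ... > m_n ≥ 1` as the limit over `m_1 ≤ M` -/
noncomputable def Li : List ℕ → ℝ → ℂ
  | [], _ => 1
  | k :: l, θ => limUnder atTop fun M : ℕ =>
      ∑ m ∈ Finset.Icc 1 M, Complex.exp (m * θ * Complex.I) / (m : ℂ) ^ k * (inner l m : ℂ)

/-- the multiple Clausen value -/
noncomputable def Cl (k : List ℕ) (θ : ℝ) : ℝ := if Even k.sum then (Li k θ).im else (Li k θ).re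

/-- the multiple Glaisher value -/
noncomputable def Gl (k : List ℕ) (θ : ℝ) : ℝ := if Even k.sum then (Li k θ).re else (Li k θ).im

lemma inner_eq (u : List ℕ) : ∀ m, inner u m = Pool.Agent.X90.DN.hr u m := by
  induction u with
  | nil => intro m; rw [inner, Pool.Agent.X90.DN.hr]
  | cons a u ih =>
    intro m
    rw [inner, Pool.Agent.X90.DN.hr]
    exact Finset.sum_congr rfl fun j _ => by rw [ih]

/-- the sixth root of unity -/
noncomputable def z : ℂ := Complex.exp ((π / 3 : ℝ) * Complex.I)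

lemma z_pow (m : ℕ) : Complex.exp (m * ((π / 3 : ℝ) : ℂ) * Complex.I) = z ^ m := by
  rw [z, ← Complex.exp_nat_mul, mul_assoc]

lemma z_six : z ^ 6 = 1 := by
  rw [← z_pow, Complex.exp_eq_one_iff]
  exact ⟨1, by push_cast; ring⟩

lemma z_im : z.im = √3 / 2 := by
  rw [z, Complex.exp_ofReal_mul_I_im, Real.sin_pi_div_three]

lemma norm_z : ‖z‖ = 1 := Complex.norm_exp_ofReal_mul_I _

lemma two_im {y : ℂ} (hy : y ^ 6 = 1) : ∃ χ : ℤ, (χ : ℝ) * (√3 / 2) = y.im ∧ |χ| ≤ 1 := by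
  obtain ⟨χ, h1, h2, h3⟩ := Pool.Agent.X90.DM.two_re hy
  have hn : ‖y‖ = 1 := by
    have h1 : ‖y‖ ^ 6 = 1 := by rw [← norm_pow, hy, norm_one]
    exact (pow_eq_one_iff_of_nonneg (norm_nonneg _) (by norm_num)).1 h1
  have hc : y.re ^ 2 + y.im ^ 2 = 1 := by
    have h4 := Complex.normSq_eq_norm_sq y
    rw [hn, Complex.normSq_apply] at h4
    nlinarith
  have h3s : (√3) ^ 2 = 3 := Real.sq_sqrt (by norm_num)
  have key : y.re ^ 2 = 1 / 4 → ∃ χ : ℤ, (χ : ℝ) * (√3 / 2) = y.im ∧ |χ| ≤ 1 := by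
    intro h
    have h5 : (y.im - √3 / 2) * (y.im + √3 / 2) = 0 := by linear_combination hc - h - h3s / 4
    rcases mul_eq_zero.1 h5 with h6 | h6
    · exact ⟨1, by push_cast; linarith, by norm_num⟩
    · exact ⟨-1, by push_cast; linarith, by norm_num⟩
  have key2 : y.re ^ 2 = 1 → ∃ χ : ℤ, (χ : ℝ) * (√3 / 2) = y.im ∧ |χ| ≤ 1 := by
    intro h
    have h5 : y.im ^ 2 = 0 := by linarith
    exact ⟨0, by rw [pow_eq_zero_iff (two_ne_zero)] at h5; rw [h5]; simp, by norm_num⟩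
  have h4 := abs_le.1 h3
  obtain ⟨h5, h6⟩ := h4
  interval_cases χ
  · exact key2 (by push_cast at h1; nlinarith)
  · exact key (by push_cast at h1; nlinarith)
  · exact absurd rfl h2
  · exact key (by push_cast at h1; nlinarith)
  · exact key2 (by push_cast at h1; nlinarith)

lemma li_mu {e : ℕ} {u : List ℕ} (he : u.length + 2 ≤ e) :
    Li (e :: u) (π / 3) = Pool.Agent.X90.DM.mu z e u := by
  rw [Li]
  refine Tendsto.limUnder_eq ?_
  have h1 := (Pool.Agent.X90.DM.summ_mu norm_z.le he).hasSum.tendsto_sum_nat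
  refine Tendsto.congr (fun L => ?_) h1
  rw [← Finset.Ico_add_one_right_eq_Icc, Finset.sum_Ico_eq_sum_range, Nat.add_sub_cancel]
  refine Finset.sum_congr rfl fun n _ => ?_
  rw [z_pow, inner_eq, Pool.Agent.X90.DN.hr_cast, add_comm 1 n]

lemma mu_re {χ : ℕ → ℤ} (hχ : ∀ l, (χ l : ℝ) = 2 * (z ^ l).re) {e : ℕ} {u : List ℕ}
    (he : u.length + 2 ≤ e) :
    2 * (Pool.Agent.X90.DM.mu z e u).re = Pool.Agent.X90.DN.Lc χ e u := by
  have hsm := Pool.Agent.X90.DM.summ_mu norm_z.le he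
  rw [Pool.Agent.X90.DM.mu, Complex.re_tsum hsm, Pool.Agent.X90.DN.Lc, ← tsum_mul_left]
  refine tsum_congr fun n => ?_
  have h2 : z ^ (n + 1) / ((n + 1 : ℕ) : ℂ) ^ e * Pool.Agent.X90.DM.hs u (n + 1) =
      z ^ (n + 1) * (((1 / ((n : ℝ) + 1) ^ e * Pool.Agent.X90.DN.hr u (n + 1) : ℝ)) : ℂ) := by
    rw [← Pool.Agent.X90.DN.hr_cast]
    push_cast
    ring
  rw [h2, Complex.re_mul_ofReal, hχ]
  ring

lemma mu_im {χ : ℕ → ℤ} (hχ : ∀ l, (χ l : ℝ) * (√3 / 2) = (z ^ l).im) {e : ℕ} {u : List ℕ}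
    (he : u.length + 2 ≤ e) :
    (Pool.Agent.X90.DM.mu z e u).im = √3 / 2 * Pool.Agent.X90.DN.Lc χ e u := by
  have hsm := Pool.Agent.X90.DM.summ_mu norm_z.le he
  rw [Pool.Agent.X90.DM.mu, Complex.im_tsum hsm, Pool.Agent.X90.DN.Lc, ← tsum_mul_left]
  refine tsum_congr fun n => ?_
  have h2 : z ^ (n + 1) / ((n + 1 : ℕ) : ℂ) ^ e * Pool.Agent.X90.DM.hs u (n + 1) =
      z ^ (n + 1) * (((1 / ((n : ℝ) + 1) ^ e * Pool.Agent.X90.DN.hr u (n + 1) : ℝ)) : ℂ) := by
    rw [← Pool.Agent.X90.DN.hr_cast]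
    push_cast
    ring
  rw [h2, Complex.im_mul_ofReal, ← hχ]
  ring

/-- the real and the imaginary parts -/
theorem parts (W : ℕ) : ∃ c : ℝ, 0 < c ∧ ∃ k0 : ℕ, ∀ k : ℕ, k0 ≤ k →
    ∀ a : List ℕ →₀ ℤ, a ≠ 0 → (∀ u ∈ a.support, (∀ t ∈ u, 1 ≤ t) ∧ u.sum ≤ W) →
      (∀ u, |(a u : ℝ)| ≤ Real.exp (c * k)) →
      ∑ u ∈ a.support, (a u : ℝ) * (Li ((k - u.sum) :: u) (π / 3)).re ≠ 0 ∧
      ∑ u ∈ a.support, (a u : ℝ) * (Li ((k - u.sum) :: u) (π / 3)).im ≠ 0 := by
  classical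
  have hz6 : ∀ l : ℕ, (z ^ l) ^ 6 = 1 := fun l => by rw [← pow_mul, mul_comm, pow_mul, z_six, one_pow]
  have hre : ∀ l : ℕ, ∃ χ : ℤ, (χ : ℝ) = 2 * (z ^ l).re ∧ χ ≠ 0 ∧ |χ| ≤ 2 := fun l =>
    Pool.Agent.X90.DM.two_re (hz6 l)
  have him : ∀ l : ℕ, ∃ χ : ℤ, (χ : ℝ) * (√3 / 2) = (z ^ l).im ∧ |χ| ≤ 1 := fun l => two_im (hz6 l)
  choose χ1 hr1 hr2 hr3 using hre
  choose χ2 hi1 hi2 using him
  have hfr : ∃ᶠ n in atTop, χ2 n ≠ 0 := by
    rw [frequently_atTop]
    intro N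
    refine ⟨6 * N + 1, by omega, fun h => ?_⟩
    have h1 := hi1 (6 * N + 1)
    rw [h, pow_succ, pow_mul, z_six, one_pow, one_mul, z_im] at h1
    have h2 : (0 : ℝ) < √3 := Real.sqrt_pos.2 (by norm_num)
    rw [Int.cast_zero, zero_mul] at h1
    linarith
  obtain ⟨c1, hc1, w1, H1⟩ := Pool.Agent.X90.DN.allc W χ1 2 (fun n => by exact_mod_cast hr3 n)
    (Frequently.of_forall fun n => hr2 n)
  obtain ⟨c2, hc2, w2, H2⟩ := Pool.Agent.X90.DN.allc W χ2 1 (fun n => by exact_mod_cast hi2 n) hfr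
  refine ⟨min c1 c2, lt_min hc1 hc2, max (max w1 w2) (2 * W + 2), fun k hk a ha0 ha hac => ?_⟩
  have hk1 : w1 ≤ k := ((le_max_left _ _).trans (le_max_left _ _)).trans hk
  have hk2 : w2 ≤ k := ((le_max_right _ _).trans (le_max_left _ _)).trans hk
  have hk3 : 2 * W + 2 ≤ k := (le_max_right _ _).trans hk
  have hsub : a.support ⊆ Pool.Agent.X90.DE.rs W := fun u hu => Pool.Agent.X90.DE.mem_rs.2 (ha u hu)
  have hex : ∃ u ∈ Pool.Agent.X90.DE.rs W, a u ≠ 0 := by
    obtain ⟨u, hu⟩ := Finsupp.ne_iff.1 ha0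
    have hu' : a u ≠ 0 := hu
    exact ⟨u, hsub (Finsupp.mem_support_iff.2 hu'), hu'⟩
  have hlen : ∀ u ∈ Pool.Agent.X90.DE.rs W, u.length + 2 ≤ k - u.sum := by
    intro u hu
    obtain ⟨h1, h2⟩ := Pool.Agent.X90.DE.mem_rs.1 hu
    have h3 := Pool.Agent.X90.DM.len_le_sum h1
    omega
  have hb1 : ∀ u ∈ Pool.Agent.X90.DE.rs W, |(a u : ℝ)| ≤ Real.exp (c1 * k) := fun u _ =>
    (hac u).trans (Real.exp_le_exp.2 (mul_le_mul_of_nonneg_right (min_le_left _ _) (Nat.cast_nonneg _)))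
  have hb2 : ∀ u ∈ Pool.Agent.X90.DE.rs W, |(a u : ℝ)| ≤ Real.exp (c2 * k) := fun u _ =>
    (hac u).trans (Real.exp_le_exp.2 (mul_le_mul_of_nonneg_right (min_le_right _ _) (Nat.cast_nonneg _)))
  constructor
  · intro h
    refine H1 k hk1 a hex hb1 ?_
    rw [← Finset.sum_subset hsub fun u _ hu => by
      rw [Finsupp.notMem_support_iff.1 hu, Int.cast_zero, zero_mul]]
    have h2 : ∑ u ∈ a.support, (a u : ℝ) * Pool.Agent.X90.DN.Lc χ1 (k - u.sum) u =
        2 * ∑ u ∈ a.support, (a u : ℝ) * (Li ((k - u.sum) :: u) (π / 3)).re := by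
      rw [Finset.mul_sum]
      refine Finset.sum_congr rfl fun u hu => ?_
      rw [← mu_re hr1 (hlen u (hsub hu)), li_mu (hlen u (hsub hu))]
      ring
    rw [h2, h, mul_zero]
  · intro h
    refine H2 k hk2 a hex hb2 ?_
    rw [← Finset.sum_subset hsub fun u _ hu => by
      rw [Finsupp.notMem_support_iff.1 hu, Int.cast_zero, zero_mul]]
    have h2 : √3 / 2 * ∑ u ∈ a.support, (a u : ℝ) * Pool.Agent.X90.DN.Lc χ2 (k - u.sum) u =
        ∑ u ∈ a.support, (a u : ℝ) * (Li ((k - u.sum) :: u) (π / 3)).im := by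
      rw [Finset.mul_sum]
      refine Finset.sum_congr rfl fun u hu => ?_
      rw [li_mu (hlen u (hsub hu)), mu_im hi1 (hlen u (hsub hu))]
      ring
    rw [h] at h2
    have h3 : (0 : ℝ) < √3 / 2 := by
      have h2 : (0 : ℝ) < √3 := Real.sqrt_pos.2 (by norm_num)
      linarith
    exact (mul_eq_zero.1 h2).resolve_left h3.ne'

/-- **Small relations between Clausen values.** For every `W` there is `c > 0` such that for all
sufficiently large weights `k` the values `Cl_{k - |u|, u}(π/3)`, `u` a composition of a number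
`|u| ≤ W`, satisfy no nontrivial integer relation with coefficients of absolute value at most
`exp (c k)`, and neither do the values `Gl_{k - |u|, u}(π/3)`. -/
theorem result (W : ℕ) : ∃ c : ℝ, 0 < c ∧ ∃ k0 : ℕ, ∀ k : ℕ, k0 ≤ k →
    ∀ a : List ℕ →₀ ℤ, a ≠ 0 → (∀ u ∈ a.support, (∀ t ∈ u, 1 ≤ t) ∧ u.sum ≤ W) →
      (∀ u, |(a u : ℝ)| ≤ Real.exp (c * k)) →
      ∑ u ∈ a.support, (a u : ℝ) * Cl ((k - u.sum) :: u) (π / 3) ≠ 0 ∧
      ∑ u ∈ a.support, (a u : ℝ) * Gl ((k - u.sum) :: u) (π / 3) ≠ 0 := by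
  obtain ⟨c, hc, k0, h⟩ := parts W
  refine ⟨c, hc, max k0 W, fun k hk a ha0 ha hac => ?_⟩
  have hk0 : k0 ≤ k := (le_max_left _ _).trans hk
  have hkW : W ≤ k := (le_max_right _ _).trans hk
  obtain ⟨h1, h2⟩ := h k hk0 a ha0 ha hac
  have hs : ∀ u ∈ a.support, ((k - u.sum) :: u).sum = k := by
    intro u hu
    have := (ha u hu).2
    rw [List.sum_cons]
    omega
  by_cases hev : Even k
  · have e1 : ∀ u ∈ a.support, Cl ((k - u.sum) :: u) (π / 3) = (Li ((k - u.sum) :: u) (π / 3)).im :=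
      fun u hu => by rw [Cl, hs u hu, if_pos hev]
    have e2 : ∀ u ∈ a.support, Gl ((k - u.sum) :: u) (π / 3) = (Li ((k - u.sum) :: u) (π / 3)).re :=
      fun u hu => by rw [Gl, hs u hu, if_pos hev]
    have f1 : ∑ u ∈ a.support, (a u : ℝ) * Cl ((k - u.sum) :: u) (π / 3) =
        ∑ u ∈ a.support, (a u : ℝ) * (Li ((k - u.sum) :: u) (π / 3)).im :=
      Finset.sum_congr rfl fun u hu => by rw [e1 u hu]
    have f2 : ∑ u ∈ a.support, (a u : ℝ) * Gl ((k - u.sum) :: u) (π / 3) =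
        ∑ u ∈ a.support, (a u : ℝ) * (Li ((k - u.sum) :: u) (π / 3)).re :=
      Finset.sum_congr rfl fun u hu => by rw [e2 u hu]
    rw [f1, f2]
    exact ⟨h2, h1⟩
  · have e1 : ∀ u ∈ a.support, Cl ((k - u.sum) :: u) (π / 3) = (Li ((k - u.sum) :: u) (π / 3)).re :=
      fun u hu => by rw [Cl, hs u hu, if_neg hev]
    have e2 : ∀ u ∈ a.support, Gl ((k - u.sum) :: u) (π / 3) = (Li ((k - u.sum) :: u) (π / 3)).im :=
      fun u hu => by rw [Gl, hs u hu, if_neg hev]
    have f1 : ∑ u ∈ a.support, (a u : ℝ) * Cl ((k - u.sum) :: u) (π / 3) =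
        ∑ u ∈ a.support, (a u : ℝ) * (Li ((k - u.sum) :: u) (π / 3)).re :=
      Finset.sum_congr rfl fun u hu => by rw [e1 u hu]
    have f2 : ∑ u ∈ a.support, (a u : ℝ) * Gl ((k - u.sum) :: u) (π / 3) =
        ∑ u ∈ a.support, (a u : ℝ) * (Li ((k - u.sum) :: u) (π / 3)).im :=
      Finset.sum_congr rfl fun u hu => by rw [e2 u hu]
    rw [f1, f2]
    exact ⟨h1, h2⟩

end Pool.Agent.Results.MP_80812c_nt.SmallRelations
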